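import Mathlib
import Pool.Agent.Lib.MP_e761a2_pr.Defs
import Pool.Agent.Lib.MP_e761a2_pr.Main

/-!
# A finite set of connected graphs for which the local limit does not exist

For the set `clawTrees` of the three trees on eight vertices that consist of two disjoint claws
and one edge joining them, the uniform random rooted connected graph `R_n` with no minor in
`clawTrees` has no weak limit, neither in the labelled nor in the unlabelled model.
-/

namespace Pool.Agent.Results.MP_e761a2_pr.NoLocalLimit

open SimpleGraph Filter Topology Pool.Agent.Lib.MP_e761a2_pr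

lemma members_eq (n : ℕ) : Members clawTrees n = MSet n := by
  ext x
  constructor
  · rintro ⟨h1, h2⟩
    exact ⟨h1, (excludes_iff h1).1 h2⟩
  · rintro ⟨h1, h2⟩
    exact ⟨h1, (excludes_iff h1).2 h2⟩

lemma no_labelled : ¬ HasWeakLimit (labelledProb clawTrees) := by
  refine no_limit (fun _ => ⊥) (fun _ => ⟨Eq, eq_equivalence⟩) ?_ _ ?_
  · intro n x y
    constructor
    · intro h
      exact ⟨1, Subgroup.mem_bot.2 rfl, (act_one x).trans h⟩
    · rintro ⟨σ, hσ, rfl⟩
      rw [Subgroup.mem_bot.1 hσ, act_one]
  · intro n E
    have hinj : Function.Injective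
        (Quotient.mk (⟨Eq, eq_equivalence⟩ : Setoid (SimpleGraph (Fin n) × Fin n))) := by
      intro x y h
      exact Quotient.exact h
    rw [Set.ncard_image_of_injective _ hinj, Set.ncard_image_of_injective _ hinj]
    unfold labelledProb
    rw [members_eq]

lemma no_unlabelled : ¬ HasWeakLimit (unlabelledProb clawTrees) := by
  refine no_limit (fun _ => ⊤) isoSetoid ?_ _ ?_
  · intro n x y
    constructor
    · rintro ⟨e, he⟩
      refine ⟨e.toEquiv, Subgroup.mem_top _, Prod.ext ?_ he⟩
      ext u v
      rw [act_adj]
      have := e.map_adj_iff (v := e.symm u) (w := e.symm v)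
      simp only [RelIso.apply_symm_apply] at this
      exact this.symm
    · rintro ⟨σ, _, rfl⟩
      exact ⟨⟨σ, fun {u v} => act_adj' σ x u v⟩, rfl⟩
  · intro n E
    unfold unlabelledProb
    rw [members_eq]

lemma path_not_twoClaws (n : ℕ) : ¬ TwoClaws (pathGraph n) := by
  rintro ⟨f, hf, hadj⟩
  have h1 := hadj 0 1 (by decide)
  have h2 := hadj 0 2 (by decide)
  have h3 := hadj 0 3 (by decide)
  rw [pathGraph_adj] at h1 h2 h3
  have e12 : (f 1).val ≠ (f 2).val := fun h => absurd (hf (Fin.ext h)) (by decide)
  have e13 : (f 1).val ≠ (f 3).val := fun h => absurd (hf (Fin.ext h)) (by decide)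
  have e23 : (f 2).val ≠ (f 3).val := fun h => absurd (hf (Fin.ext h)) (by decide)
  omega

lemma path_mem (n : ℕ) (o : Fin n) : (pathGraph n, o) ∈ Members clawTrees n := by
  rw [members_eq]
  refine ⟨?_, path_not_twoClaws n⟩
  obtain ⟨m, rfl⟩ : ∃ m, n = m + 1 := ⟨n - 1, by have := o.pos; omega⟩
  exact pathGraph_connected m

lemma clawTrees_connected : ∀ H ∈ clawTrees, H.2.Connected := by
  have key : ∀ T : SimpleGraph (Fin 8), (∀ i : Fin 8, T.Reachable i 0) → T.Connected := by
    intro T h
    exact ⟨fun u v => (h u).trans (h v).symm⟩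
  intro H hH
  simp only [clawTrees, Set.mem_insert_iff, Set.mem_singleton_iff] at hH
  rcases hH with rfl | rfl | rfl
  · apply key
    have a : ∀ i j, clawTree₁.Adj i j ↔ _ := clawTree₁_adj
    have h40 : clawTree₁.Reachable 4 0 := Adj.reachable ((a 4 0).2 (by decide))
    intro i
    fin_cases i
    · exact Reachable.refl _
    · exact Adj.reachable ((a 1 0).2 (by decide))
    · exact Adj.reachable ((a 2 0).2 (by decide))
    · exact Adj.reachable ((a 3 0).2 (by decide))
    · exact h40
    · exact (Adj.reachable ((a 5 4).2 (by decide))).trans h40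
    · exact (Adj.reachable ((a 6 4).2 (by decide))).trans h40
    · exact (Adj.reachable ((a 7 4).2 (by decide))).trans h40
  · apply key
    have a : ∀ i j, clawTree₂.Adj i j ↔ _ := clawTree₂_adj
    have h50 : clawTree₂.Reachable 5 0 := Adj.reachable ((a 5 0).2 (by decide))
    have h40 : clawTree₂.Reachable 4 0 := (Adj.reachable ((a 4 5).2 (by decide))).trans h50
    intro i
    fin_cases i
    · exact Reachable.refl _
    · exact Adj.reachable ((a 1 0).2 (by decide))
    · exact Adj.reachable ((a 2 0).2 (by decide))
    · exact Adj.reachable ((a 3 0).2 (by decide))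
    · exact h40
    · exact h50
    · exact (Adj.reachable ((a 6 4).2 (by decide))).trans h40
    · exact (Adj.reachable ((a 7 4).2 (by decide))).trans h40
  · apply key
    have a : ∀ i j, clawTree₃.Adj i j ↔ _ := clawTree₃_adj
    have h10 : clawTree₃.Reachable 1 0 := Adj.reachable ((a 1 0).2 (by decide))
    have h50 : clawTree₃.Reachable 5 0 := (Adj.reachable ((a 5 1).2 (by decide))).trans h10
    have h40 : clawTree₃.Reachable 4 0 := (Adj.reachable ((a 4 5).2 (by decide))).trans h50
    intro i
    fin_cases i
    · exact Reachable.refl _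
    · exact h10
    · exact Adj.reachable ((a 2 0).2 (by decide))
    · exact Adj.reachable ((a 3 0).2 (by decide))
    · exact h40
    · exact h50
    · exact (Adj.reachable ((a 6 4).2 (by decide))).trans h40
    · exact (Adj.reachable ((a 7 4).2 (by decide))).trans h40

/-- The three trees made of two disjoint claws and an edge joining them form a finite nonempty
set `S` of finite connected graphs; the class of connected graphs with no minor in `S` contains
all paths (so `R_n` is defined for every `n ≥ 1`, and the class has unbounded diameter); and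
neither in the labelled nor in the unlabelled model does the random rooted graph `R_n` have a
weak limit. -/
theorem result :
    clawTrees.Finite ∧ clawTrees.Nonempty ∧ (∀ H ∈ clawTrees, H.2.Connected) ∧
    (∀ (n : ℕ) (o : Fin n), (pathGraph n, o) ∈ Members clawTrees n) ∧
    ¬ HasWeakLimit (labelledProb clawTrees) ∧
    ¬ HasWeakLimit (unlabelledProb clawTrees) := by
  refine ⟨?_, ⟨⟨8, clawTree₁⟩, by simp [clawTrees]⟩, clawTrees_connected, path_mem,
    no_labelled, no_unlabelled⟩
  unfold clawTrees
  exact Set.toFinite _

end Pool.Agent.Results.MP_e761a2_pr.NoLocalLimit
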